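import Pool.Agent.L0h5.TT.G4
import Pool.Agent.L0h5.TT.Avg
import Pool.Agent.L0h5.TT.Core
import Pool.Agent.L0h19.TT.Ant
import Pool.Agent.L0h41.TT.Rnk
import Pool.Agent.L0h71.TT.Cmb
import Pool.Agent.L0h71.TT.Typ
import Pool.Agent.L0h71.TT.Exp
import Pool.Agent.L0h71.TT.Lam
import Pool.Agent.L0h88.TT.TC
import Pool.Agent.L0h88.TT.BOX
import Pool.Agent.L0h88.TT.FAM
import Pool.Agent.L0h90.TT.Cnt
import Pool.Agent.L0h93.TT.Gro
import Pool.Agent.L0h93.TT.Trv
import Pool.Agent.LLead.TT.Coef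
import Pool.Agent.LLead.TT.Fin
import Pool.Agent.L0h94.FT.Low
import Pool.Agent.W307.RT.Tors

/-!
# All moments of the rank on a set of density one of the elliptic curves with full rational 2-torsion

All elliptic curves over `ℚ` whose 2-torsion points are all rational, ordered by height. There is a
set `A` of these curves, of density one, such that for every `k` the average of `k ^ rank` over the
curves of `A` of height at most `H` is bounded by a constant that depends only on `k`. In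
particular, for every `k` the upper density of the curves of rank at least `r` among all the curves
with full rational 2-torsion is at most `C / k ^ r`.
-/

set_option autoImplicit false

namespace Pool.Agent.Results.MP_157626_nt.AllMomentsFullTwoTorsion

open Finset Filter

/-- the curve `y² = x³ + A x + B` over `ℚ` -/
def E (A B : ℤ) : WeierstrassCurve ℚ := ⟨0, 0, 0, (A : ℚ), (B : ℚ)⟩

open Classical in
/-- The pairs `(A, B)` of integers such that `4 A³ + 27 B² ≠ 0`, there is no prime `p` with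
`p⁴ ∣ A` and `p⁶ ∣ B`, the height `max (4 |A|³) (27 B²)` is at most `H`, and `Z/2 x Z/2` embeds in
the group of the rational points of `y² = x³ + A x + B`, that is, all the 2-torsion points are
rational. (The bounds `|A|, |B| ≤ H` follow from the bound of the height. Every elliptic curve over
`ℚ` is isomorphic to `E A B` for exactly one pair with the first two properties.) -/
noncomputable def Fam (H : ℕ) : Finset (ℤ × ℤ) :=
  ((Icc (-(H : ℤ)) H) ×ˢ (Icc (-(H : ℤ)) H)).filter (fun c : ℤ × ℤ =>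
    4 * c.1 ^ 3 + 27 * c.2 ^ 2 ≠ 0 ∧ 4 * |c.1| ^ 3 ≤ H ∧ 27 * c.2 ^ 2 ≤ H ∧
    (∀ p : ℕ, p.Prime → ¬ ((p : ℤ) ^ 4 ∣ c.1 ∧ (p : ℤ) ^ 6 ∣ c.2)) ∧
    ∃ f : ZMod 2 × ZMod 2 →+ (E c.1 c.2).toAffine.Point, Function.Injective f)

lemma Fam_eq (H : ℕ) : Fam H = Pool.Agent.W307.RT.Cv 2 H := by
  classical
  unfold Fam Pool.Agent.W307.RT.Cv
  apply filter_congr
  intro c _
  have h : Pool.Agent.W307.RT.HasT 2 (Pool.Agent.W307.RT.Sh c.1 c.2) ↔
      ∃ f : ZMod 2 × ZMod 2 →+ (E c.1 c.2).toAffine.Point, Function.Injective f :=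
    Pool.Agent.W307.RT.tors_iff
  rw [h]

open Classical in
/-- the curves of height at most `H` with full rational 2-torsion that belong to `A` -/
noncomputable def FamIn (A : Set (ℤ × ℤ)) (H : ℕ) : Finset (ℤ × ℤ) := (Fam H).filter (· ∈ A)

lemma Fam_mono {H H' : ℕ} (h : H ≤ H') : Fam H ⊆ Fam H' := by
  classical
  intro c hc
  unfold Fam at hc ⊢
  rw [mem_filter, mem_product, mem_Icc, mem_Icc] at hc ⊢
  have h' : (H : ℤ) ≤ H' := by exact_mod_cast h
  obtain ⟨⟨⟨a1, a2⟩, a3, a4⟩, b1, b2, b3, b4⟩ := hc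
  exact ⟨⟨⟨by linarith, by linarith⟩, by linarith, by linarith⟩, b1, by linarith, by linarith, b4⟩

lemma avg {A : Set (ℤ × ℤ)} (hT : Tendsto (fun H : ℕ => (Fam H).card) atTop atTop)
    (hA : Tendsto (fun H : ℕ => ((FamIn A H).card : ℝ) / (Fam H).card) atTop (nhds 1))
    {f : ℤ × ℤ → ℝ} {C : ℝ} (hC : ∀ H : ℕ, ∑ c ∈ FamIn A H, f c ≤ C * (Fam H).card) :
    ∃ C' : ℝ, ∀ H : ℕ, ∑ c ∈ FamIn A H, f c ≤ C' * (FamIn A H).card := by
  classical
  have h1 : ∀ᶠ H : ℕ in atTop, (1 / 2 : ℝ) < ((FamIn A H).card : ℝ) / (Fam H).card :=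
    hA.eventually (lt_mem_nhds (by norm_num))
  obtain ⟨H0, hH0⟩ := eventually_atTop.1 (h1.and (hT.eventually_ge_atTop 1))
  have hC0 : 0 ≤ |C| := abs_nonneg C
  refine ⟨2 * |C| + |C| * (Fam H0).card, fun H => ?_⟩
  have hn : (0 : ℝ) ≤ (FamIn A H).card := Nat.cast_nonneg _
  have hm : (0 : ℝ) ≤ (Fam H0).card := Nat.cast_nonneg _
  rcases Nat.lt_or_ge H H0 with h | h
  · rcases Nat.eq_zero_or_pos (FamIn A H).card with h0 | h0
    · rw [h0, card_eq_zero.1 h0, sum_empty]
      simp
    · have h2 : (1 : ℝ) ≤ (FamIn A H).card := by exact_mod_cast h0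
      have h3 : ((Fam H).card : ℝ) ≤ (Fam H0).card := by
        exact_mod_cast card_le_card (Fam_mono h.le)
      calc ∑ c ∈ FamIn A H, f c ≤ C * (Fam H).card := hC H
        _ ≤ |C| * (Fam H0).card :=
            mul_le_mul (le_abs_self C) h3 (Nat.cast_nonneg _) hC0
        _ ≤ (2 * |C| + |C| * (Fam H0).card) * 1 := by nlinarith
        _ ≤ _ := mul_le_mul_of_nonneg_left h2 (by positivity)
  · obtain ⟨h3, h4⟩ := hH0 H h
    have h5 : (0 : ℝ) < (Fam H).card := by exact_mod_cast h4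
    rw [lt_div_iff₀ h5] at h3
    calc ∑ c ∈ FamIn A H, f c ≤ C * (Fam H).card := hC H
      _ ≤ |C| * (Fam H).card := mul_le_mul_of_nonneg_right (le_abs_self C) h5.le
      _ ≤ |C| * (2 * (FamIn A H).card) := mul_le_mul_of_nonneg_left (by linarith) hC0
      _ ≤ _ := by
          have h6 : 0 ≤ |C| * (Fam H0).card * (FamIn A H).card := by positivity
          linarith

lemma hFIN : Pool.Agent.L0h5.TT.S_FIN := by
  have hCOEF := Pool.Agent.LLead.TT.coef
  have hLAM := Pool.Agent.L0h71.TT.s_lam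
  have hAGF := Pool.Agent.L0h5.TT.agF hCOEF
  have hEXP := Pool.Agent.L0h71.TT.s_exp hLAM
  have hAVG := Pool.Agent.L0h5.TT.avgF hAGF Pool.Agent.L0h71.TT.s_cmb hEXP
  have hGRO := Pool.Agent.L0h93.TT.gro
  have hTRV := Pool.Agent.L0h93.TT.trv hGRO
  have hRNK := Pool.Agent.L0h41.TT.rnk hGRO hTRV hAVG
  have hTC := Pool.Agent.L0h88.TT.tcF
  have hCORE := Pool.Agent.L0h5.TT.coreF hRNK hTRV Pool.Agent.L0h19.TT.ant hTC
    Pool.Agent.L0h90.TT.cnt
  have hBOX := Pool.Agent.L0h88.TT.boxF hCORE Pool.Agent.L0h71.TT.s_typ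
  exact Pool.Agent.LLead.TT.fin (Pool.Agent.L0h88.TT.famF hBOX)

/-- **Theorem.** The number of the elliptic curves over `ℚ` of height at most `H` with full rational
2-torsion tends to infinity with `H`, and there is a set `A` of density one among these curves such
that for every `k` the average of `k ^ rank` over the curves of `A` of height at most `H` is bounded. -/
theorem result :
    Tendsto (fun H : ℕ => (Fam H).card) atTop atTop ∧ ∃ A : Set (ℤ × ℤ),
      Tendsto (fun H : ℕ => ((FamIn A H).card : ℝ) / (Fam H).card) atTop (nhds 1) ∧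
      ∀ k : ℕ, ∃ C : ℝ, ∀ H : ℕ, ∑ c ∈ FamIn A H,
        (k : ℝ) ^ Module.finrank ℤ (E c.1 c.2).toAffine.Point ≤ C * (FamIn A H).card := by
  classical
  have hT : Tendsto (fun H : ℕ => (Fam H).card) atTop atTop := by
    simp only [Fam_eq]
    exact Pool.Agent.W307.RT.tendsto_of_low Pool.Agent.L0h94.FT.low2
  obtain ⟨A, hA, hk⟩ := hFIN
  have hA1 : Tendsto (fun H : ℕ => ((FamIn A H).card : ℝ) / (Fam H).card) atTop (nhds 1) := by
    have h1 := hA.const_sub 1
    rw [sub_zero] at h1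
    refine h1.congr' ?_
    filter_upwards [hT.eventually_ge_atTop 1] with H hH
    have h2 := card_filter_add_card_filter_not (s := Fam H) (fun c => c ∈ A)
    have h3 : ((Fam H).card : ℝ) ≠ 0 := by
      have : (Fam H).card ≠ 0 := by omega
      exact_mod_cast this
    rw [← Fam_eq]
    rw [eq_div_iff h3, sub_mul, one_mul, div_mul_cancel₀ _ h3]
    have h4 : ((FamIn A H).card : ℝ) + (((Fam H).filter (fun c => c ∉ A)).card : ℝ) =
        (Fam H).card := by
      rw [← h2]
      push_cast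
      rfl
    linarith
  refine ⟨hT, A, hA1, fun k => ?_⟩
  obtain ⟨C, hC⟩ := hk k
  refine avg hT hA1 (C := C) fun H => ?_
  have h := hC H
  rw [← Fam_eq] at h
  exact h

end Pool.Agent.Results.MP_157626_nt.AllMomentsFullTwoTorsion
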