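import Mathlib
import Pool.Agent.L0h5.TE.D13
import Pool.Agent.L0h80.TE.LowPf

/-!
# The average of `x ^ rank` in one-parameter families with full 2-torsion

Every elliptic curve over `ℚ(T)` with full rational 2-torsion has, after a twist of the
coordinates, the form `y² = x (x - D G₀) (x - D G₁)` with `D`, `G₀`, `G₁` in `ℚ[T]`, `D`
squarefree and `G₀`, `G₁` coprime. Put `G₂ = G₀ - G₁`. The irreducible factors of `D` are places
of additive reduction; an irreducible factor `f` of `G_k` that does not divide `D` is a place of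
multiplicative reduction, which is split if and only if `κ_k` is a square modulo `f`, where
`κ₀ = -D G₁`, `κ₁ = -D G₀`, `κ₂ = D G₀`.

Let `A_k` be the number of the multiplicative places `f ∣ G_k`, the split ones counted twice, let
`A'_k` be the same number with the places of degree one left out, and let `B_k` be the number of the
multiplicative places that divide the two other `G_l`, where the nonsplit ones with even
multiplicity are counted with weight `1/2`. Let `1 < x ≤ 2` be a real number. Suppose that for each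
`k` we have `x A_k ≤ 2 B_k`, and `A_k ≤ B_k` or `A'_k < B_k`. Then the average of `x ^ rank` over
the integers `t` in `(n, n + X]` is bounded, uniformly for `|n| ≤ X ^ M`.

For `x = 2` the condition is `A_k ≤ B_k` for each `k`; it is the condition for the average of the
sizes of the 2-Selmer groups to be bounded. For `x < 2` the theorem applies to families in which
this average is infinite.
-/

namespace Pool.Agent.Results.MP_157626_nt.PencilsShortIntervals

open Finset Polynomial UniqueFactorizationMonoid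

/-- the curve `y² = x (x - A) (x - B)` over `ℚ` -/
def E (A B : ℚ) : WeierstrassCurve ℚ := ⟨0, -(A + B), 0, A * B, 0⟩

open Classical in
/-- the distinct monic irreducible factors of `H` that do not divide `D` -/
noncomputable def factors (D H : ℚ[X]) : Finset ℚ[X] :=
  (normalizedFactors H).toFinset.filter (fun f => ¬ f ∣ D)

/-- `κ` is a square modulo `f` -/
def SquareMod (f κ : ℚ[X]) : Prop := ∃ R : ℚ[X], f ∣ κ - R ^ 2

open Classical in
/-- the weight of a place on the left: two if it is split, one otherwise -/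
noncomputable def α (f κ : ℚ[X]) : ℝ := if SquareMod f κ then 2 else 1

open Classical in
/-- the weight of a place on the right: one if it is split or its multiplicity in `H` is odd, and
one half otherwise -/
noncomputable def β (f H κ : ℚ[X]) : ℝ :=
  if SquareMod f κ ∨ Odd ((normalizedFactors H).count f) then 1 else 1 / 2

/-- the sum of `α` over the places that divide `H` -/
noncomputable def sumα (D H κ : ℚ[X]) : ℝ := ∑ f ∈ factors D H, α f κ

/-- the sum of `α` over the places of degree at least two that divide `H` -/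
noncomputable def sumα₂ (D H κ : ℚ[X]) : ℝ :=
  ∑ f ∈ (factors D H).filter (fun f => 2 ≤ f.natDegree), α f κ

/-- the sum of `β` over the places that divide `H` -/
noncomputable def sumβ (D H κ : ℚ[X]) : ℝ := ∑ f ∈ factors D H, β f H κ

/-- the condition `x A ≤ 2 B`, and `A ≤ B` or `A' < B` -/
def Criterion (x A A' B : ℝ) : Prop := x * A ≤ 2 * B ∧ (A ≤ B ∨ A' < B)

open Pool.Agent.L0h5.TH Pool.Agent.L0h5.TE in
lemma crit {D G₀ G₁ G₂ : ℚ[X]} {x ε : ℝ} (hε : (2 : ℝ) ^ ε = x)
    (c0 : Criterion x (sumα D G₀ (-(D * G₁))) (sumα₂ D G₀ (-(D * G₁)))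
      (sumβ D G₁ (-(D * G₀)) + sumβ D G₂ (D * G₀)))
    (c1 : Criterion x (sumα D G₁ (-(D * G₀))) (sumα₂ D G₁ (-(D * G₀)))
      (sumβ D G₀ (-(D * G₁)) + sumβ D G₂ (D * G₀)))
    (c2 : Criterion x (sumα D G₂ (D * G₀)) (sumα₂ D G₂ (D * G₀))
      (sumβ D G₀ (-(D * G₁)) + sumβ D G₁ (-(D * G₀)))) :
    CritE ε D ![G₀, G₁, G₂] := by
  classical
  have hm : ∀ H, mfT ∅ D H = factors D H := by
    intro H
    unfold mfT factors
    ext f
    simp only [mem_filter, notMem_empty, not_false_eq_true, and_true]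
  have hA : ∀ k, Aow D ![G₀, G₁, G₂] k =
      sumα D (![G₀, G₁, G₂] k) (kp D ![G₀, G₁, G₂] k) := by
    intro k
    unfold Aow sumα
    rw [hm]
    rfl
  have hA' : ∀ k, Anl D ![G₀, G₁, G₂] k =
      sumα₂ D (![G₀, G₁, G₂] k) (kp D ![G₀, G₁, G₂] k) := by
    intro k
    unfold Anl sumα₂
    rw [hm, sum_filter]
    rfl
  have hB : ∀ k, Pool.Agent.L0h5.TE.Bot D ![G₀, G₁, G₂] k =
      ∑ l ∈ univ.erase k, sumβ D (![G₀, G₁, G₂] l) (kp D ![G₀, G₁, G₂] l) := by
    intro k
    unfold Pool.Agent.L0h5.TE.Bot sumβ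
    refine sum_congr rfl fun l _ => ?_
    rw [hm]
    rfl
  have h3 : ∀ k : Fin 3, k = 0 ∨ k = 1 ∨ k = 2 := by decide
  have e0 : (univ : Finset (Fin 3)).erase 0 = {1, 2} := by decide
  have e1 : (univ : Finset (Fin 3)).erase 1 = {0, 2} := by decide
  have e2 : (univ : Finset (Fin 3)).erase 2 = {0, 1} := by decide
  intro k
  rw [hε]
  rcases h3 k with rfl | rfl | rfl
  · have h4 : Pool.Agent.L0h5.TE.Bot D ![G₀, G₁, G₂] 0 = sumβ D G₁ (-(D * G₀)) + sumβ D G₂ (D * G₀) := by
      rw [hB, e0, sum_pair (by decide)]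
      rfl
    rw [h4, hA, hA']
    exact c0
  · have h4 : Pool.Agent.L0h5.TE.Bot D ![G₀, G₁, G₂] 1 = sumβ D G₀ (-(D * G₁)) + sumβ D G₂ (D * G₀) := by
      rw [hB, e1, sum_pair (by decide)]
      rfl
    rw [h4, hA, hA']
    exact c1
  · have h4 : Pool.Agent.L0h5.TE.Bot D ![G₀, G₁, G₂] 2 = sumβ D G₀ (-(D * G₁)) + sumβ D G₁ (-(D * G₀)) := by
      rw [hB, e2, sum_pair (by decide)]
      rfl
    rw [h4, hA, hA']
    exact c2

/-- The average of `x ^ rank` in short intervals is bounded if the criterion holds. -/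
theorem result (D G₀ G₁ G₂ : ℚ[X]) (hrel : G₀ - G₁ = G₂) (hD : Squarefree D) (h0 : G₀ ≠ 0)
    (h1 : G₁ ≠ 0) (h2 : G₂ ≠ 0) (h01 : IsCoprime G₀ G₁) (x : ℝ) (hx : 1 < x) (hx2 : x ≤ 2)
    (c0 : Criterion x (sumα D G₀ (-(D * G₁))) (sumα₂ D G₀ (-(D * G₁)))
      (sumβ D G₁ (-(D * G₀)) + sumβ D G₂ (D * G₀)))
    (c1 : Criterion x (sumα D G₁ (-(D * G₀))) (sumα₂ D G₁ (-(D * G₀)))
      (sumβ D G₀ (-(D * G₁)) + sumβ D G₂ (D * G₀)))
    (c2 : Criterion x (sumα D G₂ (D * G₀)) (sumα₂ D G₂ (D * G₀))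
      (sumβ D G₀ (-(D * G₁)) + sumβ D G₁ (-(D * G₀))))
    (M : ℕ) :
    ∃ C : ℝ, ∀ X : ℕ, 1 ≤ X → ∀ n : ℤ, n.natAbs ≤ X ^ M →
      ∑ t ∈ (Ioc n (n + X)).filter (fun t : ℤ => (D * G₀ * G₁ * G₂).eval (t : ℚ) ≠ 0),
        x ^ Module.finrank ℤ
          (E ((D * G₀).eval (t : ℚ)) ((D * G₁).eval (t : ℚ))).toAffine.Point ≤ C * X := by
  have hε : (2 : ℝ) ^ (Real.logb 2 x) = x :=
    Real.rpow_logb (by norm_num) (by norm_num) (by linarith)
  have hε0 : 0 < Real.logb 2 x := Real.logb_pos (by norm_num) hx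
  have hε1 : Real.logb 2 x ≤ 1 := by
    rw [Real.logb_le_iff_le_rpow (by norm_num) (by linarith), Real.rpow_one]
    exact hx2
  obtain ⟨C, hC⟩ := Pool.Agent.L0h5.TE.gZE Pool.Agent.L0h80.TE.lownl (D := D)
    (G := ![G₀, G₁, G₂]) hrel hD (fun k => by
      have h3 : k = 0 ∨ k = 1 ∨ k = 2 := by
        revert k
        decide
      rcases h3 with rfl | rfl | rfl
      · exact h0
      · exact h1
      · exact h2) h01 hε0 hε1 (crit hε c0 c1 c2) M
  refine ⟨C, fun X hX n hn => ?_⟩
  have h3 := hC X hX n hn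
  simp only [Real.rpow_mul (show (0 : ℝ) ≤ 2 by norm_num), hε, Real.rpow_natCast] at h3
  exact h3

end Pool.Agent.Results.MP_157626_nt.PencilsShortIntervals
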