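import Mathlib
import Pool.Agent.L0h5.TE.W5
import Pool.Agent.L0h5.TE.Z8
import Pool.Agent.L0h5.TE.Z12
import Pool.Agent.L0h5.TE.Tend

/-!
# The elliptic curves over `ℚ` with a rational point of order `m`, `4 ∣ m`, ordered by height

By Mazur's theorem the possible orders divisible by `4` of a rational torsion point of an elliptic
curve over `ℚ` are `m = 4, 8, 12`. For each of them the number of the elliptic curves over `ℚ` with a
rational point of order `m` of height at most `H` tends to infinity with `H`, and the average of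
`(1 + 2 / m) ^ rank` over them is bounded by a constant. In particular the average rank (and every
moment of the rank) is bounded, and the proportion of the curves of rank at least `r` is at most
`C (1 + 2 / m) ^ (-r)`, uniformly in `H`.
-/

set_option autoImplicit false

namespace Pool.Agent.Results.MP_157626_nt.TorsionOrderDivisibleByFour

open Finset Filter

/-- the curve `y² = x³ + A x + B` over `ℚ` -/
def E (A B : ℤ) : WeierstrassCurve ℚ := ⟨0, 0, 0, (A : ℚ), (B : ℚ)⟩

open Classical in
/-- The pairs `(A, B)` of integers such that `4 A³ + 27 B² ≠ 0`, there is no prime `p` with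
`p⁴ ∣ A` and `p⁶ ∣ B`, the height `max (4 |A|³) (27 B²)` is at most `H`, and the curve
`y² = x³ + A x + B` has a rational point of order `m`. (The bounds `|A|, |B| ≤ H` follow from the
bound of the height. Every elliptic curve over `ℚ` is isomorphic to `E A B` for exactly one pair
with the first two properties.) -/
noncomputable def Fam (m H : ℕ) : Finset (ℤ × ℤ) :=
  ((Icc (-(H : ℤ)) H) ×ˢ (Icc (-(H : ℤ)) H)).filter (fun c : ℤ × ℤ =>
    4 * c.1 ^ 3 + 27 * c.2 ^ 2 ≠ 0 ∧ 4 * |c.1| ^ 3 ≤ H ∧ 27 * c.2 ^ 2 ≤ H ∧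
    (∀ p : ℕ, p.Prime → ¬ ((p : ℤ) ^ 4 ∣ c.1 ∧ (p : ℤ) ^ 6 ∣ c.2)) ∧
    ∃ P : (E c.1 c.2).toAffine.Point, addOrderOf P = m)

/-- **Theorem.** Let `m` be `4`, `8` or `12`. The number of the elliptic curves over `ℚ` of height at
most `H` with a rational point of order `m` tends to infinity with `H`, and the average of
`(1 + 2 / m) ^ rank` over them is bounded. -/
theorem result (m : ℕ) (hm : m = 4 ∨ m = 8 ∨ m = 12) :
    Tendsto (fun H : ℕ => (Fam m H).card) atTop atTop ∧
    ∃ C : ℝ, ∀ H : ℕ,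
    ∑ c ∈ Fam m H, (1 + 2 / (m : ℝ)) ^ Module.finrank ℤ (E c.1 c.2).toAffine.Point ≤
      C * (Fam m H).card := by
  rcases hm with rfl | rfl | rfl
  · refine ⟨Pool.Agent.L0h5.TE.tendsto_gen (by norm_num) Pool.Agent.L0h80.T8.low4c, ?_⟩
    have e : (1 + 2 / ((4 : ℕ) : ℝ)) = 3 / 2 := by norm_num
    rw [e]
    exact Pool.Agent.L0h5.TE.main4c
  · refine ⟨Pool.Agent.L0h5.TE.tendsto_gen (by norm_num) Pool.Agent.L0h98.T8.low8c, ?_⟩
    have e : (1 + 2 / ((8 : ℕ) : ℝ)) = 5 / 4 := by norm_num
    rw [e]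
    exact Pool.Agent.L0h5.TE.main8
  · refine ⟨Pool.Agent.L0h5.TE.tendsto_gen (by norm_num) Pool.Agent.L0h98.T12.low12c, ?_⟩
    have e : (1 + 2 / ((12 : ℕ) : ℝ)) = 7 / 6 := by norm_num
    rw [e]
    exact Pool.Agent.L0h5.TE.S12.main12

end Pool.Agent.Results.MP_157626_nt.TorsionOrderDivisibleByFour
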