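import Mathlib
import Pool.Agent.L0h5.TH.FinZ2

/-!
# All the moments of `2 ^ rank` are bounded for polynomial twists in short intervals

Let `E` be an elliptic curve over `ℚ` with full rational 2-torsion, `y² = x (x - A) (x - B)`, and
let `D` be a nonzero polynomial with rational coefficients. For all `k` and `M` the average over
the integers `t` with `D(t) ≠ 0` in an interval `(x, x + X]`, where `|x| ≤ X ^ M`, of the `k`-th
power of `2 ^ rank` of the quadratic twist `y² = x (x - A D(t)) (x - B D(t))` is bounded by a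
constant that depends only on `A`, `B`, `D`, `k`, `M`.
-/

namespace Pool.Agent.Results.MP_157626_nt.TwistsShortIntervals

open Finset Polynomial

/-- the curve `y² = x (x - A) (x - B)` over `ℚ` -/
def E (A B : ℚ) : WeierstrassCurve ℚ := ⟨0, -(A + B), 0, A * B, 0⟩

/-- All the moments of `2 ^ rank` are bounded for the twists by the values of a polynomial at the
integers in a short interval. -/
theorem result (A B : ℚ) (hA : A ≠ 0) (hB : B ≠ 0) (hAB : A ≠ B) (D : ℚ[X]) (hD : D ≠ 0)
    (k M : ℕ) : ∃ C : ℝ, ∀ X : ℕ, 1 ≤ X → ∀ x : ℤ, x.natAbs ≤ X ^ M →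
      ∑ t ∈ (Ioc x (x + X)).filter (fun t : ℤ => D.eval (t : ℚ) ≠ 0),
        ((2 : ℝ) ^ Module.finrank ℤ (E (A * D.eval (t : ℚ))
          (B * D.eval (t : ℚ))).toAffine.Point) ^ k ≤ C * X :=
  Pool.Agent.L0h5.TH.twistZ A B hA hB hAB D hD k M

end Pool.Agent.Results.MP_157626_nt.TwistsShortIntervals
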